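import Mathlib
import Pool.Agent.Results.MP_00464d_lc.MathiasModel

/-!
# `𝔟_b^eq`, `𝔡_b^eq` and the ideal `ℰ` for `b` with divergent sum

For the constant function `b = 2`, `non(ℰ) ≤ 𝔟_b^eq` and `𝔡_b^eq ≤ cov(ℰ)` in ZFC. For all `b`,
`𝔟_b^eq ≤ 𝔡(≠*, b)`, `𝔟(≠*, b) ≤ 𝔡_b^eq`, and `𝔰 ≤ non(ℰ)`, `cov(ℰ) ≤ 𝔯`. So `𝔟_b^eq < non(ℰ)` if
`𝔡(≠*, b) < 𝔰`, which holds in the Mathias model for all `b` tending to infinity.
-/

set_option autoImplicit false

namespace Pool.Agent.Results.MP_60e7f9_lc.ConstantTwo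

open Filter Cardinal MeasureTheory
open scoped ENNReal
open Pool.Agent.Results.MP_0fb2ec_lc.DivergentSums (Prod IsPartition Sq bEq dEq coin IsE nonE covE
  null_of_isE exists_bEq)
open Pool.Agent.Results.MP_00464d_lc.MathiasModel (dNe Splits sNum bEq_le_dNe sNum_le_nonE
  isE_not_splits isE_mono)

/-! ### Definitions used in the statement -/

/-- `𝔟(≠*, b)`: the least cardinality of a set `ℱ` of functions such that no `y ∈ ∏ b` is
eventually different from all members of `ℱ`. -/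
noncomputable def bNe (b : ℕ → ℕ) : Cardinal.{0} :=
  sInf {κ | ∃ ℱ : Set (ℕ → ℕ), (¬ ∃ y ∈ Prod b, ∀ x ∈ ℱ, ∀ᶠ n in atTop, x n ≠ y n) ∧ #ℱ = κ}

/-- The reaping number `𝔯`: the least size of a set of infinite sets which no single set
splits. -/
noncomputable def rNum : Cardinal.{0} :=
  sInf {κ | ∃ R : Set (Set ℕ), (∀ X ∈ R, X.Infinite) ∧ (∀ x : ℕ → Bool, ∃ X ∈ R, ¬ Splits x X) ∧
    #R = κ}

/-! ### Meagre sets -/

theorem coin_cyl (z : ℕ → Bool) (n : ℕ) : coin {y | ∀ i < n, y i = z i} ≠ 0 := by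
  have h1 : {y : ℕ → Bool | ∀ i < n, y i = z i} =
      Set.pi ((Finset.range n : Finset ℕ) : Set ℕ) (fun i => {z i}) := by
    ext y
    simp
  rw [h1]
  unfold coin
  rw [Measure.infinitePi_pi _ (fun _ _ => MeasurableSet.of_discrete)]
  rw [Finset.prod_ne_zero_iff]
  intro i _
  rw [PMF.toMeasure_apply_singleton _ _ (measurableSet_singleton _)]
  simp

theorem exists_cyl {U : Set (ℕ → Bool)} (hU : IsOpen U) {z : ℕ → Bool} (hz : z ∈ U) :
    ∃ n, ∀ y : ℕ → Bool, (∀ i < n, y i = z i) → y ∈ U := by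
  obtain ⟨V, ⟨w, n, rfl⟩, hzV, hVU⟩ :=
    (PiNat.isTopologicalBasis_cylinders (fun _ : ℕ => Bool)).exists_subset_of_mem_open hz hU
  refine ⟨n, fun y hy => hVU ?_⟩
  intro i hi
  rw [hy i hi]
  exact hzV i hi

/-- replace the first `m` values -/
def repl (m : ℕ) (s : Fin m → Bool) (x : ℕ → Bool) : ℕ → Bool :=
  fun i => if h : i < m then s ⟨i, h⟩ else x i

theorem continuous_repl (m : ℕ) (s : Fin m → Bool) : Continuous (repl m s) := by
  refine continuous_pi fun i => ?_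
  unfold repl
  by_cases h : i < m
  · simp only [h, dite_true]
    exact continuous_const
  · simp only [h, dite_false]
    exact continuous_apply i

theorem dense_repl {D : Set (ℕ → Bool)} (h0 : coin D = 0) (m : ℕ) (s : Fin m → Bool) :
    Dense ((repl m s ⁻¹' D)ᶜ) := by
  rw [dense_iff_inter_open]
  rintro U hU ⟨w, hw⟩
  obtain ⟨n, hn⟩ := exists_cyl hU hw
  by_contra hc
  rw [Set.not_nonempty_iff_eq_empty] at hc
  apply coin_cyl (repl m s w) (max n m)
  refine measure_mono_null (fun y hy => ?_) h0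
  have h1 : (fun i => if i < m then w i else y i) ∈ U := by
    apply hn
    intro i hi
    by_cases h : i < m
    · simp [h]
    · have h2 := hy i (lt_of_lt_of_le hi (le_max_left _ _))
      simp only [h, if_false]
      rw [h2]
      simp [repl, h]
  have h2 : (fun i => if i < m then w i else y i) ∈ repl m s ⁻¹' D := by
    by_contra h3
    have h4 : (fun i => if i < m then w i else y i) ∈ U ∩ (repl m s ⁻¹' D)ᶜ := ⟨h1, h3⟩
    rw [hc] at h4
    exact h4
  have h3 : repl m s (fun i => if i < m then w i else y i) = y := by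
    funext i
    by_cases h : i < m
    · have h4 := hy i (lt_of_lt_of_le h (le_max_right _ _))
      rw [h4]
      simp [repl, h]
    · simp [repl, h]
  have h4 : repl m s (fun i => if i < m then w i else y i) ∈ D := h2
  rw [h3] at h4
  exact h4

theorem step {D : Set (ℕ → Bool)} (hD : IsClosed D) (h0 : coin D = 0) (m : ℕ) :
    ∃ m', m < m' ∧ ∃ z : ℕ → Bool, ∀ x ∈ D, ∃ k, m ≤ k ∧ k < m' ∧ x k ≠ z k := by
  have hopen : ∀ s : Fin m → Bool, IsOpen ((repl m s ⁻¹' D)ᶜ) := fun s =>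
    (hD.preimage (continuous_repl m s)).isOpen_compl
  have hd : Dense (⋂ s : Fin m → Bool, (repl m s ⁻¹' D)ᶜ) :=
    dense_iInter_of_isOpen hopen (fun s => dense_repl h0 m s)
  obtain ⟨z, hz⟩ := hd.nonempty
  obtain ⟨n, hn⟩ := exists_cyl (isOpen_iInter_of_finite hopen) hz
  refine ⟨max n (m + 1), by omega, z, fun x hx => ?_⟩
  by_contra hc
  push Not at hc
  have h1 : (fun i => if i < m then z i else x i) ∈ ⋂ s : Fin m → Bool, (repl m s ⁻¹' D)ᶜ := by
    apply hn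
    intro i hi
    by_cases h : i < m
    · simp [h]
    · simp only [h, if_false]
      exact hc i (not_lt.1 h) (lt_of_lt_of_le hi (le_max_left _ _))
  have h2 := Set.mem_iInter.1 h1 (fun i => x i)
  apply h2
  show repl m (fun i => x i) (fun i => if i < m then z i else x i) ∈ D
  have h3 : repl m (fun i => x i) (fun i => if i < m then z i else x i) = x := by
    funext i
    by_cases h : i < m <;> simp [repl, h]
  rw [h3]
  exact hx

/-- the sets in `ℰ` are bounded for `b = 2` -/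
theorem isE_bounded {A : Set (ℕ → Bool)} (hA : IsE A) :
    ∃ a, IsPartition a ∧ ∃ z : ℕ → Bool, ∀ x ∈ A, ∀ᶠ n in atTop,
      ∃ k, a n ≤ k ∧ k < a (n + 1) ∧ x k ≠ z k := by
  obtain ⟨C, hC, hsub⟩ := hA
  have hD : ∀ n, IsClosed (⋃ i ∈ Finset.range (n + 1), C i) ∧
      coin (⋃ i ∈ Finset.range (n + 1), C i) = 0 := by
    intro n
    constructor
    · exact isClosed_biUnion_finset fun i _ => (hC i).1
    · exact measure_mono_null (Set.iUnion₂_subset fun i _ => Set.subset_iUnion C i)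
        (measure_iUnion_null fun i => (hC i).2)
  choose φ h1 ζ h2 using fun (n m : ℕ) => step (hD n).1 (hD n).2 m
  obtain ⟨a, ha0, has⟩ : ∃ a : ℕ → ℕ, a 0 = 0 ∧ ∀ n, a (n + 1) = φ n (a n) :=
    ⟨fun n => Nat.rec 0 (fun n r => φ n r) n, rfl, fun _ => rfl⟩
  have hmono : StrictMono a := strictMono_nat_of_lt_succ fun n => by
    rw [has]
    exact h1 _ _
  classical
  refine ⟨a, ⟨hmono, ha0⟩,
    fun k => if h : ∃ n, a n ≤ k ∧ k < a (n + 1) then ζ h.choose (a h.choose) k else true, ?_⟩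
  intro x hx
  obtain ⟨i, hi⟩ := Set.mem_iUnion.1 (hsub hx)
  filter_upwards [eventually_ge_atTop i] with n hn
  have h3 : x ∈ ⋃ i ∈ Finset.range (n + 1), C i :=
    Set.mem_biUnion (Finset.mem_coe.2 (Finset.mem_range.2 (by omega))) hi
  obtain ⟨k, hk1, hk2, hk3⟩ := h2 n (a n) x h3
  rw [← has n] at hk2
  refine ⟨k, hk1, hk2, ?_⟩
  have h : ∃ n, a n ≤ k ∧ k < a (n + 1) := ⟨n, hk1, hk2⟩
  have h4 : h.choose = n := by
    have h5 := h.choose_spec
    rcases lt_trichotomy h.choose n with h6 | h6 | h6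
    · have h7 := hmono.monotone (show h.choose + 1 ≤ n from h6)
      omega
    · exact h6
    · have h7 := hmono.monotone (show n + 1 ≤ h.choose from h6)
      omega
  rw [dif_pos h, h4]
  exact hk3

/-- from `0, 1` to truth values -/
def toB (x : ℕ → ℕ) : ℕ → Bool := fun k => decide (x k = 1)

/-- the opposite of `z` -/
def opp (z : ℕ → Bool) : ℕ → ℕ := fun k => if z k = true then 0 else 1

theorem opp_mem (z : ℕ → Bool) : opp z ∈ Prod (fun _ => 2) := by
  intro k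
  show (if z k = true then 0 else 1) < 2
  split_ifs <;> omega

theorem sq_of {f a : ℕ → ℕ} (hf : f ∈ Prod (fun _ => 2)) {z : ℕ → Bool}
    (h : ∀ᶠ n in atTop, ∃ k, a n ≤ k ∧ k < a (n + 1) ∧ toB f k ≠ z k) : Sq f a (opp z) := by
  refine h.mono fun n hn => ?_
  obtain ⟨k, hk1, hk2, hk3⟩ := hn
  refine ⟨k, hk1, hk2, ?_⟩
  have h1 : f k < 2 := hf k
  unfold toB at hk3
  unfold opp
  rcases Nat.lt_or_ge (f k) 1 with h2 | h2
  · have h3 : f k = 0 := by omega
    rw [h3] at hk3 ⊢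
    have h4 : z k = true := by
      cases hz : z k
      · exact absurd (by rw [hz]; rfl) hk3
      · rfl
    rw [if_pos h4]
  · have h3 : f k = 1 := by omega
    rw [h3] at hk3 ⊢
    have h4 : ¬ z k = true := by
      intro hz
      exact hk3 (by rw [hz]; rfl)
    rw [if_neg h4]

theorem nonE_le_bEq_two : nonE ≤ bEq (fun _ => 2) := by
  obtain ⟨F, hsub, hwit, hcard⟩ := exists_bEq (b := fun _ => 2) (fun _ => by norm_num)
    (Eventually.of_forall fun _ => le_rfl)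
  rw [← hcard]
  have hmem : #(toB '' F) ∈ {κ | ∃ A : Set (ℕ → Bool), ¬ IsE A ∧ #A = κ} := by
    refine ⟨_, fun hE => hwit ?_, rfl⟩
    obtain ⟨a, ha, z, hz⟩ := isE_bounded hE
    exact ⟨a, ha, opp z, opp_mem z, fun f hf => sq_of (hsub hf) (hz _ ⟨f, hf, rfl⟩)⟩
  exact (csInf_le' hmem).trans Cardinal.mk_image_le

theorem exists_covE : ∃ 𝒜 : Set (Set (ℕ → Bool)), (∀ A ∈ 𝒜, IsE A) ∧ ⋃₀ 𝒜 = Set.univ ∧
    #𝒜 = covE := by
  have hne : {κ | ∃ 𝒜 : Set (Set (ℕ → Bool)), (∀ A ∈ 𝒜, IsE A) ∧ ⋃₀ 𝒜 = Set.univ ∧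
      #𝒜 = κ}.Nonempty := by
    refine ⟨_, {A | ∃ X : Set ℕ, X.Infinite ∧ A = {x | ¬ Splits x X}}, ?_, ?_, rfl⟩
    · rintro _ ⟨X, hX, rfl⟩
      exact isE_not_splits hX
    · refine Set.eq_univ_of_forall fun x => ?_
      by_cases h : {n | x n = true}.Infinite
      · refine ⟨_, ⟨{n | x n = true}, h, rfl⟩, fun hs => hs.2 ?_⟩
        have : {n | n ∈ {n | x n = true} ∧ x n = false} = ∅ := by
          ext n
          simp
        rw [this]
        exact Set.finite_empty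
      · have h2 : {n | x n = false}.Infinite := by
          intro h3
          have h4 : (Set.univ : Set ℕ) ⊆ {n | x n = true} ∪ {n | x n = false} := by
            intro n _
            cases hx : x n
            · exact Or.inr hx
            · exact Or.inl hx
          exact Set.infinite_univ (((Set.not_infinite.1 h).union h3).subset h4)
        refine ⟨_, ⟨{n | x n = false}, h2, rfl⟩, fun hs => hs.1 ?_⟩
        have : {n | n ∈ {n | x n = false} ∧ x n = true} = ∅ := by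
          ext n
          simp
        rw [this]
        exact Set.finite_empty
  exact csInf_mem hne

theorem dEq_two_le_covE : dEq (fun _ => 2) ≤ covE := by
  obtain ⟨𝒜, h1, h2, hcard⟩ := exists_covE
  rw [← hcard]
  choose a ha z hz using fun A : 𝒜 => isE_bounded (h1 A.1 A.2)
  have hmem : #(Set.range fun A : 𝒜 => (a A, opp (z A))) ∈
      {κ | ∃ D : Set ((ℕ → ℕ) × (ℕ → ℕ)), (∀ p ∈ D, IsPartition p.1 ∧ p.2 ∈ Prod (fun _ => 2)) ∧
        (∀ f ∈ Prod (fun _ => 2), ∃ p ∈ D, Sq f p.1 p.2) ∧ #D = κ} := by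
    refine ⟨_, ?_, fun f hf => ?_, rfl⟩
    · rintro _ ⟨A, rfl⟩
      exact ⟨ha A, opp_mem _⟩
    · have h3 : toB f ∈ ⋃₀ 𝒜 := by
        rw [h2]
        trivial
      obtain ⟨A, hA, hfA⟩ := h3
      exact ⟨_, ⟨⟨A, hA⟩, rfl⟩, sq_of hf (hz ⟨A, hA⟩ _ hfA)⟩
  exact (csInf_le' hmem).trans Cardinal.mk_range_le

/-! ### The dual inequalities -/

theorem bNe_le_dEq (b : ℕ → ℕ) : bNe b ≤ dEq b := by
  have hne : {κ | ∃ D : Set ((ℕ → ℕ) × (ℕ → ℕ)), (∀ p ∈ D, IsPartition p.1 ∧ p.2 ∈ Prod b) ∧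
      (∀ f ∈ Prod b, ∃ p ∈ D, Sq f p.1 p.2) ∧ #D = κ}.Nonempty := by
    refine ⟨_, {p | IsPartition p.1 ∧ p.2 ∈ Prod b}, fun p hp => hp, fun f hf => ?_, rfl⟩
    exact ⟨(fun n => n, f), ⟨⟨fun _ _ h => h, rfl⟩, hf⟩,
      Eventually.of_forall fun n => ⟨n, le_rfl, Nat.lt_succ_self n, rfl⟩⟩
  obtain ⟨D, hD, hwit, hcard⟩ := csInf_mem hne
  have hcard' : #D = dEq b := hcard
  rw [← hcard']
  have hmem : #(_root_.Prod.snd '' D) ∈ {κ | ∃ ℱ : Set (ℕ → ℕ),
      (¬ ∃ y ∈ Prod b, ∀ x ∈ ℱ, ∀ᶠ n in atTop, x n ≠ y n) ∧ #ℱ = κ} := by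
    refine ⟨_, ?_, rfl⟩
    rintro ⟨y, hy, hall⟩
    obtain ⟨p, hp, hs⟩ := hwit y hy
    obtain ⟨K, hK⟩ := eventually_atTop.1 (hall p.2 ⟨p, hp, rfl⟩)
    obtain ⟨N, hN⟩ := eventually_atTop.1 hs
    obtain ⟨k, hk1, hk2, hk3⟩ := hN (max N K) (le_max_left _ _)
    have hk4 : K ≤ k := (le_max_right N K).trans (((hD p hp).1.1.id_le _).trans hk1)
    exact hK k hk4 hk3.symm
  exact (csInf_le' hmem).trans Cardinal.mk_image_le

theorem covE_le_rNum : covE ≤ rNum := by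
  have hne : {κ | ∃ R : Set (Set ℕ), (∀ X ∈ R, X.Infinite) ∧
      (∀ x : ℕ → Bool, ∃ X ∈ R, ¬ Splits x X) ∧ #R = κ}.Nonempty := by
    refine ⟨_, {X | X.Infinite}, fun X hX => hX, fun x => ?_, rfl⟩
    by_contra hc
    push Not at hc
    have h1 := hc Set.univ Set.infinite_univ
    have h2 : {n | x n = true}.Infinite := by
      refine h1.1.mono ?_
      intro n hn
      exact hn.2
    have h3 := hc _ h2
    apply h3.2
    have : {n | n ∈ {n | x n = true} ∧ x n = false} = ∅ := by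
      ext n
      simp
    rw [this]
    exact Set.finite_empty
  obtain ⟨R, hR, hwit, hcard⟩ := csInf_mem hne
  have hcard' : #R = rNum := hcard
  rw [← hcard']
  have hmem : #((fun X : Set ℕ => {x : ℕ → Bool | ¬ Splits x X}) '' R) ∈
      {κ | ∃ 𝒜 : Set (Set (ℕ → Bool)), (∀ A ∈ 𝒜, IsE A) ∧ ⋃₀ 𝒜 = Set.univ ∧ #𝒜 = κ} := by
    refine ⟨_, ?_, ?_, rfl⟩
    · rintro _ ⟨X, hX, rfl⟩
      exact isE_not_splits (hR X hX)
    · refine Set.eq_univ_of_forall fun x => ?_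
      obtain ⟨X, hX, hs⟩ := hwit x
      exact ⟨_, ⟨X, hX, rfl⟩, hs⟩
  exact (csInf_le' hmem).trans Cardinal.mk_image_le

/-- **`𝔟_b^eq`, `𝔡_b^eq` and the ideal `ℰ`.** -/
theorem result :
    -- the constant function `2` (with divergent sum)
    ((¬ Summable fun _ : ℕ => (1 : ℝ) / ((2 : ℕ) : ℝ)) ∧ nonE ≤ bEq (fun _ => 2) ∧
      dEq (fun _ => 2) ≤ covE) ∧
    -- all `b`
    (∀ b : ℕ → ℕ, (∀ k, 1 ≤ b k) → (∀ᶠ k in atTop, 2 ≤ b k) →
      bEq b ≤ dNe b ∧ bNe b ≤ dEq b) ∧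
    sNum ≤ nonE ∧ covE ≤ rNum ∧
    (∀ b : ℕ → ℕ, (∀ k, 1 ≤ b k) → (∀ᶠ k in atTop, 2 ≤ b k) →
      (dNe b < sNum → bEq b < nonE) ∧ (rNum < bNe b → covE < dEq b)) := by
  refine ⟨⟨?_, nonE_le_bEq_two, dEq_two_le_covE⟩, fun b hb hb2 => ⟨bEq_le_dNe hb hb2,
    bNe_le_dEq b⟩, sNum_le_nonE, covE_le_rNum, fun b hb hb2 => ⟨fun h => ?_, fun h => ?_⟩⟩
  · intro h
    have h1 := h.tendsto_atTop_zero
    have h2 := tendsto_nhds_unique h1 tendsto_const_nhds
    norm_num at h2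
  · exact (bEq_le_dNe hb hb2).trans_lt (h.trans_le sNum_le_nonE)
  · exact covE_le_rNum.trans_lt (h.trans_le (bNe_le_dEq b))

end Pool.Agent.Results.MP_60e7f9_lc.ConstantTwo
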